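import Pool.Agent.Q307.Bal.Main

/-!
# Groups whose small-subsets ballean is normal have regular cardinality

Let the cardinality `κ` of `G` be singular. Choose `a_x`, `b_y` and `z(x, y)`, for `x, y < κ`, generic
along a chain of subgroups of smaller cardinality, and put `P = {z(x, y) b_y⁻¹}`,
`Q = {z(x, y) a_x⁻¹}`. For every `e` only countably many pairs `(p, q)` in `P × Q` satisfy
`p⁻¹ q = e`, so that `P` and `Q` are asymptotically disjoint. If `U` and `V` are asymptotic
neighbourhoods of `P` and `Q`, the sets `{x : z(x, y) ∉ U}` and `{y : z(x, y) ∉ V}` have size at most
`λ` for a fixed cardinal `λ < κ`, since `κ` is singular, and `U ∩ V` has size `κ`.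
-/

set_option autoImplicit false

namespace Pool.Agent.Results.MP_08c285_gt.RegularOfNormal

open Cardinal Pool.Agent.Q307.Bal

universe u

/-- If the ballean of an infinite group `G` determined by the ideal of the subsets of cardinality
smaller than `|G|` is normal, then `|G|` is a regular cardinal. -/
theorem result (G : Type u) [Group G] [Infinite G] (h : Normal G) : (#G).IsRegular :=
  regular_of_normal h

end Pool.Agent.Results.MP_08c285_gt.RegularOfNormal
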